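import Pool.Agent.H487.GP.Stm

set_option autoImplicit false

/-! Project GP (helper487), task 17255: `S_ELT`. -/

open Complex

namespace Pool.Agent.H643.GP

open Pool.Agent.H487.GP

/-- an angle with a small sine is near an integer multiple of `π` -/
theorem near_pi (x ε : ℝ) (h : |Real.sin x| ≤ 2 * ε) : ∃ j : ℤ, |x - Real.pi * j| ≤ 4 * ε := by
  have hpi := Real.pi_pos
  refine ⟨round (x / Real.pi), ?_⟩
  set j : ℤ := round (x / Real.pi) with hj
  have h1 : |x / Real.pi - j| ≤ 1 / 2 := abs_sub_round _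
  have h2 : x - Real.pi * j = Real.pi * (x / Real.pi - j) := by
    field_simp
  have h3 : |x - Real.pi * j| ≤ Real.pi / 2 := by
    rw [h2, abs_mul, abs_of_pos hpi]
    calc Real.pi * |x / Real.pi - j| ≤ Real.pi * (1 / 2) := mul_le_mul_of_nonneg_left h1 hpi.le
      _ = Real.pi / 2 := by ring
  have h4 := Real.mul_abs_le_abs_sin h3
  have h5 : |Real.sin (x - Real.pi * j)| = |Real.sin x| := by
    rw [mul_comm, Real.sin_sub_int_mul_pi, abs_mul, abs_neg_one_zpow, one_mul]
  rw [h5] at h4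
  have h6 : 2 / Real.pi * |x - Real.pi * j| ≤ 2 * ε := h4.trans h
  have h7 : |x - Real.pi * j| ≤ Real.pi * ε := by
    have h8 := mul_le_mul_of_nonneg_left h6 (half_pos hpi).le
    have h9 : Real.pi / 2 * (2 / Real.pi * |x - Real.pi * j|) = |x - Real.pi * j| := by
      field_simp
    rw [h9] at h8
    linarith
  have h8 : 0 ≤ ε := by
    have := abs_nonneg (Real.sin x)
    linarith
  have h9 := Real.pi_le_four
  nlinarith

theorem elt_proof : S_ELT := by
  intro ε A B P hε0 hε1 hA hB hAr hBr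
  have hAn : 0 < ‖A‖ := norm_pos_iff.2 hA
  have hE : 0 < Real.exp P.re := Real.exp_pos _
  have hBn : ‖B‖ = ‖A‖ * Real.exp P.re := by rw [hB, norm_mul, Complex.norm_exp]
  have hBn0 : 0 < ‖B‖ := by rw [hBn]; positivity
  have h1 : A.re * B.im - A.im * B.re = ‖A‖ * ‖B‖ * Real.sin P.im := by
    rw [hBn]
    have h2 : ‖A‖ * (‖A‖ * Real.exp P.re) * Real.sin P.im = ‖A‖ ^ 2 * (Real.exp P.re * Real.sin P.im) := by ring
    rw [h2, ← Complex.normSq_eq_norm_sq, Complex.normSq_apply, hB, Complex.mul_re, Complex.mul_im,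
      Complex.exp_re, Complex.exp_im]
    ring
  have h2 : |A.re * B.im - A.im * B.re| ≤ ‖A‖ * ‖B‖ * (2 * ε) := by
    calc |A.re * B.im - A.im * B.re| ≤ |A.re * B.im| + |A.im * B.re| := abs_sub _ _
      _ = |A.re| * |B.im| + |A.im| * |B.re| := by rw [abs_mul, abs_mul]
      _ ≤ ε * ‖A‖ * ‖B‖ + ‖A‖ * (ε * ‖B‖) := by
          refine add_le_add (mul_le_mul hAr (Complex.abs_im_le_norm B) (abs_nonneg _) (by positivity))
            (mul_le_mul (Complex.abs_im_le_norm A) hBr (abs_nonneg _) hAn.le)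
      _ = ‖A‖ * ‖B‖ * (2 * ε) := by ring
  rw [h1, abs_mul, abs_of_pos (mul_pos hAn hBn0)] at h2
  exact near_pi P.im ε (le_of_mul_le_mul_left h2 (mul_pos hAn hBn0))

end Pool.Agent.H643.GP
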